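import Pool.Agent.Y649.ETR.Stm

/-!
# Project ETR: renaming the relations
-/

set_option autoImplicit false

namespace Pool.Agent.Y872.ETRRel

open Finset Pool.Agent.Results.MP_44674b_co.WreathExact Pool.Agent.Y649.ETR

variable {X : Type} [Fintype X] [DecidableEq X] {d : ℕ}

theorem bm_eq {S S' : SymScheme X d} {τ : Equiv.Perm (Fin (d + 1))}
    (h : ∀ x y, S'.c x y = τ (S.c x y)) : boseMesner S'.c = boseMesner S.c := by
  ext M
  rw [bm_iff, bm_iff]
  constructor
  · rintro ⟨φ, hφ⟩
    exact ⟨fun i => φ (τ i), fun x y => by rw [hφ, h]⟩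
  · rintro ⟨φ, hφ⟩
    exact ⟨fun i => φ (τ.symm i), fun x y => by
      rw [hφ, h]
      simp only [Equiv.symm_apply_apply]⟩

theorem adj_eq {S S' : SymScheme X d} {τ : Equiv.Perm (Fin (d + 1))}
    (h : ∀ x y, S'.c x y = τ (S.c x y)) (k : Fin (d + 1)) : adj S'.c (τ k) = adj S.c k := by
  ext x y
  unfold adj
  rw [h]
  by_cases hk : S.c x y = k
  · rw [if_pos hk, if_pos (by rw [hk])]
  · rw [if_neg hk, if_neg (fun h' => hk (τ.injective h'))]

theorem main : S_RELABEL := by
  intro X _ _ d S S' τ h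
  have hb := bm_eq h
  have hW : WStar S'.c = WStar S.c := by
    unfold WStar
    rw [hb]
  have hD : WDelta S'.c = WDelta S.c := by
    unfold WDelta
    rw [hb]
  constructor
  · rintro ⟨h1, h2, h3⟩
    refine ⟨?_, by rw [hW, hD]; exact h2, by rw [hW, hD]; exact h3⟩
    intro i j k x y z x' y' z' e1 e2 e3
    have key : ∀ (x u : X) (i : Fin (d + 1)), S'.c x u = i ↔ S.c x u = τ.symm i := by
      intro x u i
      rw [h, Equiv.eq_symm_apply]
    have t : ∀ x y x' y', S'.c x y = S'.c x' y' → S.c x y = S.c x' y' := by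
      intro x y x' y' e
      rw [h, h] at e
      exact τ.injective e
    simp only [key]
    exact h1 (τ.symm i) (τ.symm j) (τ.symm k) x y z x' y' z' (t _ _ _ _ e1) (t _ _ _ _ e2)
      (t _ _ _ _ e3)
  · rintro ⟨σ, E, P, Q, hinj, hE, hE0, hA, hEQ, hPQ⟩
    refine ⟨σ.trans τ, E, P, Q, hinj, ?_, hE0, ?_, ?_, hPQ⟩
    · intro e
      rw [← hE e]
      unfold SymScheme.IsPrimitiveIdempotent
      rw [hb]
    · intro i
      rw [Equiv.trans_apply, adj_eq h, hA]
    · intro i
      rw [hEQ]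
      congr 1
      refine sum_congr rfl fun j _ => ?_
      rw [Equiv.trans_apply, adj_eq h]

end Pool.Agent.Y872.ETRRel
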