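import Pool.Agent.Y649.ETR.Stm

/-!
# Project ETR: iterated wreath products of complete graphs, palindromic sizes
-/

set_option autoImplicit false

namespace Pool.Agent.Y872.ETRPal

open Finset Pool.Agent.Results.MP_44674b_co.WreathExact Pool.Agent.Y649.ETR

/-- the product of the first `m` sizes -/
def bb {n : ℕ} (s : Fin (n + 2) → ℕ) (m : ℕ) : ℕ :=
  ∏ i : Fin (n + 2), if i.val < m then s i else 1

theorem bb_pos {n : ℕ} (s : Fin (n + 2) → ℕ) (hs : ∀ i, 2 ≤ s i) (m : ℕ) : 0 < bb s m := by
  unfold bb
  refine prod_pos fun i _ => ?_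
  have := hs i
  split_ifs
  · omega
  · exact one_pos

theorem bb_succ {n : ℕ} (s : Fin (n + 2) → ℕ) (i : Fin (n + 2)) :
    bb s (i.val + 1) = s i * bb s i.val := by
  unfold bb
  have h1 : s i = ∏ j : Fin (n + 2), if j = i then s j else 1 := by
    rw [prod_ite_eq' univ i s, if_pos (mem_univ i)]
  rw [h1, ← prod_mul_distrib]
  refine prod_congr rfl fun j _ => ?_
  by_cases e1 : j = i
  · rw [e1, if_pos (by omega), if_pos rfl, if_neg (by omega), mul_one]
  · have e2 : j.val ≠ i.val := fun h => e1 (Fin.ext h)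
    rw [if_neg e1, one_mul]
    by_cases e3 : j.val < i.val
    · rw [if_pos (by omega), if_pos e3]
    · rw [if_neg (by omega), if_neg e3]

theorem bb_zero {n : ℕ} (s : Fin (n + 2) → ℕ) : bb s 0 = 1 := by
  unfold bb
  simp

theorem bb_top {n : ℕ} (s : Fin (n + 2) → ℕ) : bb s (n + 2) = ∏ i, s i := by
  unfold bb
  refine prod_congr rfl fun i _ => ?_
  rw [if_pos i.isLt]

/-- comparison of two consecutive products -/
theorem step {n : ℕ} (s : Fin (n + 2) → ℕ) (i : Fin (n + 2)) :
    bb s (i.val + 1) * bb s (n + 2 - (i.val + 1)) =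
      s i * (bb s i.val * bb s (n + 1 - i.val)) ∧
    bb s i.val * bb s (n + 2 - i.val) = s (Fin.rev i) * (bb s i.val * bb s (n + 1 - i.val)) := by
  have hi := i.isLt
  constructor
  · rw [bb_succ]
    have : n + 2 - (i.val + 1) = n + 1 - i.val := by omega
    rw [this]
    ring
  · have h1 := bb_succ s (Fin.rev i)
    have h2 : (Fin.rev i).val = n + 1 - i.val := by
      rw [Fin.val_rev]
      omega
    rw [h2] at h1
    have h3 : n + 1 - i.val + 1 = n + 2 - i.val := by omega
    rw [h3] at h1
    rw [h1]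
    ring

theorem main : S_ULTRA → S_PAL := by
  intro hU n s hs
  obtain ⟨x0⟩ : Nonempty ((i : Fin (n + 2)) → Fin (s i)) :=
    ⟨fun i => ⟨0, by have := hs i; omega⟩⟩
  have h1 := hU ((i : Fin (n + 2)) → Fin (s i)) (n + 2) (col s) (col_ultra s) (col_surj s hs) x0
  have h2 : ∀ m : Fin (n + 2 + 1), bsize (col s) x0 m = bb s m.val := by
    intro m
    unfold bsize
    rw [ball_card]
    rfl
  have hcard : Fintype.card ((i : Fin (n + 2)) → Fin (s i)) = bb s (n + 2) := by
    rw [bb_top, Fintype.card_pi]
    refine prod_congr rfl fun i _ => ?_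
    rw [Fintype.card_fin]
  unfold wreath
  rw [h1]
  simp only [h2]
  rw [hcard]
  constructor
  · intro h i
    have hi := i.isLt
    have e1 := h ⟨i.val + 1, by omega⟩
    have e2 := h ⟨i.val, by omega⟩
    simp only [Fin.val_rev] at e1 e2
    have e3 : n + 2 + 1 - (i.val + 1 + 1) = n + 2 - (i.val + 1) := by omega
    have e4 : n + 2 + 1 - (i.val + 1) = n + 2 - i.val := by omega
    rw [e3, (step s i).1] at e1
    rw [e4, (step s i).2] at e2
    have e5 : 0 < bb s i.val * bb s (n + 1 - i.val) := Nat.mul_pos (bb_pos s hs _) (bb_pos s hs _)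
    exact Nat.eq_of_mul_eq_mul_right e5 (e2.trans e1.symm)
  · intro h
    have key : ∀ m : ℕ, m ≤ n + 2 → bb s m * bb s (n + 2 - m) = bb s (n + 2) := by
      intro m
      induction m with
      | zero =>
        intro _
        rw [bb_zero, one_mul, Nat.sub_zero]
      | succ m ih =>
        intro hm
        have e1 := ih (by omega)
        have e2 := step s ⟨m, by omega⟩
        simp only at e2
        rw [e2.1, ← h ⟨m, by omega⟩, ← e2.2]
        exact e1
    intro i
    rw [Fin.val_rev]
    have hi := i.isLt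
    have e1 := key i.val (by omega)
    have e2 : n + 2 + 1 - (i.val + 1) = n + 2 - i.val := by omega
    rw [e2]
    exact e1

end Pool.Agent.Y872.ETRPal
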